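import Mathlib
import Pool.Agent.H89.LC.Main

/-!
# A planar graph with no odd wheel that is not `{1,1,2}`-choosable  (problem MP_296adc_co, Q1, Q2)

We disprove Q1 and both statements of Q2: one planar graph without odd wheels, with one assignment
of lists of four colours that is a `{1,1,2}`-assignment, a `{1,3}`-assignment and a
`{2,2}`-assignment, and no proper colouring from the lists.
-/

namespace Pool.Agent.Results.MP_296adc_co.NotOneOneTwo

/-! ## Definitions used in the statement -/

/-- The `k`-wheel `W_k` (for `k ≥ 3`): the cycle `C_k` on the vertices `some i`, `i : Fin k`,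
together with one extra vertex `none` adjacent to all of them. -/
def wheel (k : ℕ) : SimpleGraph (Option (Fin k)) where
  Adj x y := (x = none ∧ y ≠ none) ∨ (x ≠ none ∧ y = none) ∨
    ∃ i j, x = some i ∧ y = some j ∧ (SimpleGraph.cycleGraph k).Adj i j
  symm := ⟨by
    rintro x y (⟨h1, h2⟩ | ⟨h1, h2⟩ | ⟨i, j, h1, h2, h3⟩)
    · exact Or.inr (Or.inl ⟨h2, h1⟩)
    · exact Or.inl ⟨h2, h1⟩
    · exact Or.inr (Or.inr ⟨j, i, h2, h1, h3.symm⟩)⟩
  loopless := ⟨by
    rintro x (⟨h1, h2⟩ | ⟨h1, h2⟩ | ⟨i, j, h1, h2, h3⟩)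
    · exact h2 h1
    · exact h1 h2
    · rw [h1] at h2
      exact h3.ne (Option.some_injective _ h2)⟩

/-- `G` contains no odd wheel: no subgraph of `G` is isomorphic to `W_k` for any odd `k ≥ 3`. -/
def ContainsNoOddWheel {V : Type} (G : SimpleGraph V) : Prop :=
  ∀ k : ℕ, 3 ≤ k → Odd k → ¬ (wheel k).IsContained G

/-- `G` is planar: it has a straight-line drawing in the plane `ℝ × ℝ`, that is, the vertices can
be placed at distinct points so that, when every edge is drawn as the segment between its ends, a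
point that lies on two different edges is a common end of them, and no vertex other than its ends
lies on an edge. (By Fáry's theorem this is the same as planarity for finite simple graphs.) -/
def IsPlanar {V : Type} (G : SimpleGraph V) : Prop :=
  ∃ f : V → ℝ × ℝ, Function.Injective f ∧
    (∀ a b c d : V, G.Adj a b → G.Adj c d → s(a, b) ≠ s(c, d) →
      ∀ p ∈ segment ℝ (f a) (f b), p ∈ segment ℝ (f c) (f d) →
        ∃ w : V, (w = a ∨ w = b) ∧ (w = c ∨ w = d) ∧ p = f w) ∧
    (∀ a b w : V, G.Adj a b → f w ∈ segment ℝ (f a) (f b) → w = a ∨ w = b)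

/-- `L` is a `λ`-assignment for the multiset `λ = {lam 0, …, lam (q-1)}`: the set of all colours
`⋃ v, L v` is the union of disjoint sets `C 0, …, C (q-1)` such that every `L v` has exactly
`lam i` colours in `C i`, for every `i` (so `L v` has `∑ i, lam i` colours). -/
def IsLambdaAssignment {V : Type} {q : ℕ} (lam : Fin q → ℕ) (L : V → Finset ℕ) : Prop :=
  (∀ v, (L v).card = ∑ i, lam i) ∧
  ∃ C : Fin q → Set ℕ, (∀ i j, i ≠ j → Disjoint (C i) (C j)) ∧
    (⋃ v, (L v : Set ℕ)) = (⋃ i, C i) ∧
    ∀ v i, ((L v : Set ℕ) ∩ C i).ncard = lam i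

/-! ## The graph has the required properties -/

/-- A graph in which every neighbourhood is bipartite contains no odd wheel. -/
theorem noOddWheel {V : Type} {G : SimpleGraph V} (h : Pool.TRI.NBip G) :
    ContainsNoOddWheel G := by
  rintro k hk hodd ⟨f⟩
  have hadj : ∀ i, G.Adj (f none) (f (some i)) := fun i =>
    f.toHom.map_adj (Or.inl ⟨rfl, by simp⟩)
  have hrim : ∀ i j, (SimpleGraph.cycleGraph k).Adj i j → G.Adj (f (some i)) (f (some j)) :=
    fun i j h => f.toHom.map_adj (Or.inr (Or.inr ⟨i, j, rfl, rfl, h⟩))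
  obtain ⟨g, hg⟩ := h (f none)
  let c : (SimpleGraph.cycleGraph k).Coloring Bool :=
    SimpleGraph.Coloring.mk (fun i => g (f (some i)))
      (fun {i j} h => hg _ _ (hadj i) (hadj j) (hrim i j h))
  have h1 : (SimpleGraph.cycleGraph k).Colorable 2 := by
    have := c.colorable
    simpa using this
  have h2 := SimpleGraph.chromaticNumber_cycleGraph_of_odd k (by omega) hodd
  have h3 := h1.chromaticNumber_le
  rw [h2] at h3
  exact absurd h3 (by decide)

open Pool.H89.LC (LL)

theorem card_LL {s : Finset ℕ} (h : LL s) : s.card = 4 := by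
  obtain ⟨c, d, h1, -, h3, -, h5, rfl⟩ := h
  rw [Finset.card_insert_of_notMem, Finset.card_insert_of_notMem,
    Finset.card_insert_of_notMem, Finset.card_singleton]
  · simpa using h5
  · simp only [Finset.mem_insert, Finset.mem_singleton]
    omega
  · simp only [Finset.mem_insert, Finset.mem_singleton]
    omega

/-- Counting in a list. -/
theorem cnt {s : Finset ℕ} (h : LL s) (P : ℕ → Prop) [DecidablePred P] (k : ℕ)
    (hP : ∀ c ∈ Finset.Icc 2 5, ∀ d ∈ Finset.Icc 2 5, c ≠ d →
      ((({0, 1, c, d} : Finset ℕ).filter P).card = k)) :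
    ((s : Set ℕ) ∩ {a | P a}).ncard = k := by
  obtain ⟨c, d, h1, h2, h3, h4, h5, rfl⟩ := h
  rw [← hP c (Finset.mem_Icc.2 ⟨h1, h2⟩) d (Finset.mem_Icc.2 ⟨h3, h4⟩) h5,
    ← Set.ncard_coe_finset, Finset.coe_filter]
  rfl

/-- A general form of the three assignments. -/
theorem assign_aux {V : Type} {q : ℕ} (lam : Fin q → ℕ) (L : V → Finset ℕ) (P : ℕ → Fin q)
    (hL : ∀ v, LL (L v)) (hs : ∑ i, lam i = 4)
    (hc : ∀ s, LL s → ∀ i, ((s : Set ℕ) ∩ {a | P a = i}).ncard = lam i) :
    IsLambdaAssignment lam L := by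
  refine ⟨fun v => by rw [card_LL (hL v), hs],
    fun i => {a | P a = i} ∩ ⋃ v, (L v : Set ℕ), ?_, ?_, ?_⟩
  · intro i j hij
    rw [Set.disjoint_left]
    rintro a ⟨h1, -⟩ ⟨h2, -⟩
    exact hij (h1.symm.trans h2)
  · ext a
    simp only [Set.mem_iUnion, Set.mem_inter_iff]
    constructor
    · intro h
      exact ⟨P a, rfl, h⟩
    · rintro ⟨i, -, h⟩
      exact h
  · intro v i
    rw [← hc (L v) (hL v) i]
    congr 1
    ext a
    simp only [Set.mem_inter_iff, Set.mem_iUnion]
    constructor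
    · rintro ⟨h1, h2, -⟩
      exact ⟨h1, h2⟩
    · rintro ⟨h1, h2⟩
      exact ⟨h1, h2, v, h1⟩

theorem assign112 {V : Type} (L : V → Finset ℕ) (hL : ∀ v, LL (L v)) :
    IsLambdaAssignment ![1, 1, 2] L := by
  refine assign_aux _ L (fun a => if a = 0 then 0 else if a = 1 then 1 else 2) hL
    (by simp [Fin.sum_univ_three]) ?_
  intro s hs i
  refine cnt hs _ _ ?_
  fin_cases i <;> decide

theorem assign13 {V : Type} (L : V → Finset ℕ) (hL : ∀ v, LL (L v)) :
    IsLambdaAssignment ![1, 3] L := by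
  refine assign_aux _ L (fun a => if a = 0 then 0 else 1) hL (by simp [Fin.sum_univ_two]) ?_
  intro s hs i
  refine cnt hs _ _ ?_
  fin_cases i <;> decide

theorem assign22 {V : Type} (L : V → Finset ℕ) (hL : ∀ v, LL (L v)) :
    IsLambdaAssignment ![2, 2] L := by
  refine assign_aux _ L (fun a => if a < 2 then 0 else 1) hL (by simp [Fin.sum_univ_two]) ?_
  intro s hs i
  refine cnt hs _ _ ?_
  fin_cases i <;> decide

/-- **Theorem.** There is a planar graph containing no odd wheel with an assignment `L` of lists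
that is a `{1,1,2}`-assignment, a `{1,3}`-assignment and a `{2,2}`-assignment, and that admits no
proper colouring `φ` with `φ v ∈ L v` for all `v`. -/
theorem result : ∃ (n : ℕ) (G : SimpleGraph (Fin n)) (L : Fin n → Finset ℕ),
    IsPlanar G ∧ ContainsNoOddWheel G ∧ IsLambdaAssignment ![1, 1, 2] L ∧
    IsLambdaAssignment ![1, 3] L ∧ IsLambdaAssignment ![2, 2] L ∧
    ¬ ∃ φ : Fin n → ℕ, (∀ u v, G.Adj u v → φ u ≠ φ v) ∧ ∀ v, φ v ∈ L v := by
  obtain ⟨n, G, f, L, h1, h2, h3, h4⟩ := Pool.H89.LC.main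
  exact ⟨n, G, L, ⟨f, h1⟩, noOddWheel h2, assign112 L h3, assign13 L h3, assign22 L h3, h4⟩

end Pool.Agent.Results.MP_296adc_co.NotOneOneTwo
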